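import Pool.Agent.H18.CGR.Stmts

set_option autoImplicit false

namespace Pool.CGR

theorem nrm_thm (h1 : NRAStmt) : NRMStmt := by
  intro A _ τ hτ a ha hn
  have key := h1 A τ hτ a ha hn
  let h : ℝ → ℝ := fun t => max (t ^ 2 - 4) 0
  have hc : Continuous h := by fun_prop
  have hs : Continuous fun t => √(h t) := by fun_prop
  have hh0 : ∀ t, 0 ≤ h t := fun t => le_max_right _ _
  have hsq : ∀ t, √(h t) * √(h t) = h t := fun t => Real.mul_self_sqrt (hh0 t)
  have hht : ∀ t, h t * t ^ 2 = h t * h t + 4 * h t := by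
    intro t
    rcases le_total (t ^ 2 - 4) 0 with h2 | h2
    · have h3 : h t = 0 := max_eq_right h2
      rw [h3]; ring
    · have h3 : h t = t ^ 2 - 4 := max_eq_left h2
      rw [h3]; ring
  set b : A := cfc (fun t : ℝ => √(h t)) a with hb
  set c : A := cfc h a with hcdef
  have hbs : star b = b := (cfc_predicate (R := ℝ) (fun t : ℝ => √(h t)) a).star_eq
  have hcs : star c = c := (cfc_predicate (R := ℝ) h a).star_eq
  have hbb : star b * b = c := by
    rw [hbs, hb, ← cfc_mul (fun t : ℝ => √(h t)) (fun t : ℝ => √(h t)) a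
      hs.continuousOn hs.continuousOn]
    exact cfc_congr fun t _ => hsq t
  have hba : star b * a ^ 2 * b = star c * c + (4 : ℝ) • c := by
    have e1 : a ^ 2 = cfc (fun t : ℝ => t ^ 2) a := (cfc_pow_id (R := ℝ) a 2 ha).symm
    rw [hbs, hcs, e1, hb, ← cfc_mul (fun t : ℝ => √(h t)) (fun t : ℝ => t ^ 2) a
      hs.continuousOn (by fun_prop), ← cfc_mul (fun t : ℝ => √(h t) * t ^ 2)
      (fun t : ℝ => √(h t)) a (hs.mul (by fun_prop)).continuousOn hs.continuousOn, hcdef,
      ← cfc_mul h h a hc.continuousOn hc.continuousOn,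
      ← cfc_const_mul (4 : ℝ) h a hc.continuousOn,
      ← cfc_add (a := a) (fun t : ℝ => h t * h t) (fun t : ℝ => 4 * h t)
        (hc.mul hc).continuousOn (by fun_prop)]
    refine cfc_congr fun t _ => ?_
    show √(h t) * t ^ 2 * √(h t) = h t * h t + 4 * h t
    rw [← hht t]
    calc √(h t) * t ^ 2 * √(h t) = (√(h t) * √(h t)) * t ^ 2 := by ring
      _ = h t * t ^ 2 := by rw [hsq t]
  have h2 := key b
  rw [hba, hbb, map_add, Complex.add_re] at h2
  have h3 : (τ ((4 : ℝ) • c)).re = 4 * (τ c).re := by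
    rw [show ((4 : ℝ) • c) = ((4 : ℝ) : ℂ) • c from (Complex.coe_smul 4 c).symm, map_smul,
      smul_eq_mul, Complex.re_ofReal_mul]
  rw [h3] at h2
  obtain ⟨h4, h5⟩ := hτ.pos c
  have h6 : τ (star c * c) = 0 := Complex.ext (by simp only [Complex.zero_re]; linarith) h5
  have h7 : c = 0 := hτ.faithful c h6
  have h8 : ∀ t ∈ spectrum ℝ a, h t = 0 := by
    have h9 : cfc h a = cfc (fun _ : ℝ => (0 : ℝ)) a := by
      rw [← hcdef, h7, cfc_const_zero]
    intro t ht
    exact (cfc_eq_cfc_iff_eqOn (R := ℝ) (a := a) ha hc.continuousOn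
      continuousOn_const).1 h9 ht
  have h10 : ‖cfc (fun t : ℝ => t) a‖ ≤ 2 := by
    refine norm_cfc_le (by norm_num) fun t ht => ?_
    have h11 := h8 t ht
    have h12 : t ^ 2 - 4 ≤ 0 := by
      have := le_max_left (t ^ 2 - 4) 0
      exact this.trans h11.le
    rw [Real.norm_eq_abs]
    exact abs_le_of_sq_le_sq (by linarith) (by norm_num)
  rwa [cfc_id' ℝ a ha] at h10

end Pool.CGR
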