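import Pool.Agent.H18.CGR.Stmts2

set_option autoImplicit false

namespace Pool.CGR

namespace TNB

theorem conj {A : Type} [CStarAlgebra A] (τ : A →ₗ[ℂ] ℂ) (h1 : τ 1 = 1)
    (h2 : ∀ a, 0 ≤ (τ (star a * a)).re ∧ (τ (star a * a)).im = 0) (a : A) :
    τ (star a) = star (τ a) := by
  have e1 : star (a + 1) * (a + 1) = star a * a + star a + a + 1 := by
    rw [star_add, star_one]
    noncomm_ring
  have e2 : star (a + Complex.I • (1 : A)) * (a + Complex.I • (1 : A)) =
      star a * a + Complex.I • star a + (-Complex.I) • a + 1 := by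
    have h3 : (Complex.I * Complex.I) = -1 := Complex.I_mul_I
    rw [star_add, star_smul, star_one, add_mul, mul_add, mul_add, smul_mul_assoc, one_mul,
      mul_smul_comm, mul_one, smul_mul_smul_comm, mul_one, Complex.star_def, Complex.conj_I,
      neg_mul, h3, neg_neg, one_smul]
    abel
  have f1 := (h2 (a + 1)).2
  have f2 := (h2 (a + Complex.I • (1 : A))).2
  have f0 := (h2 a).2
  rw [e1] at f1
  rw [e2] at f2
  simp only [map_add, map_smul, h1, Complex.add_im, f0, Complex.one_im, smul_eq_mul,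
    Complex.mul_im, Complex.I_re, Complex.I_im, Complex.neg_re, Complex.neg_im] at f1 f2
  apply Complex.ext
  · rw [Complex.star_def, Complex.conj_re]
    linarith
  · rw [Complex.star_def, Complex.conj_im]
    linarith

theorem cs {A : Type} [CStarAlgebra A] (τ : A →ₗ[ℂ] ℂ) (h1 : τ 1 = 1)
    (h2 : ∀ a, 0 ≤ (τ (star a * a)).re ∧ (τ (star a * a)).im = 0) (a : A) :
    ‖τ a‖ ^ 2 ≤ (τ (star a * a)).re := by
  have hc := conj τ h1 h2 a
  set z := τ a with hz
  have e1 : star (a + (-z) • (1 : A)) * (a + (-z) • (1 : A)) =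
      star a * a + (-z) • star a + (-(star z)) • a + (star z * z) • (1 : A) := by
    rw [star_add, star_smul, star_one, add_mul, mul_add, mul_add, smul_mul_assoc, one_mul,
      mul_smul_comm, mul_one, smul_mul_smul_comm, mul_one, star_neg, neg_mul_neg]
    abel
  have f1 := (h2 (a + (-z) • (1 : A))).1
  rw [e1] at f1
  simp only [map_add, map_smul, h1, hc, smul_eq_mul, ← hz] at f1
  have f3 : τ (star a * a) + -z * star z + -star z * z + star z * z * 1 =
      τ (star a * a) - z * star z := by ring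
  rw [f3, Complex.sub_re, Complex.star_def, Complex.mul_conj, Complex.ofReal_re,
    Complex.normSq_eq_norm_sq] at f1
  linarith

theorem bdd {A : Type} [CStarAlgebra A] (τ : A →ₗ[ℂ] ℂ) (h1 : τ 1 = 1)
    (h2 : ∀ a, 0 ≤ (τ (star a * a)).re ∧ (τ (star a * a)).im = 0) (a : A) :
    (τ (star a * a)).re ≤ ‖a‖ ^ 2 := by
  set h : A := star a * a with hh
  have hsa : IsSelfAdjoint h := IsSelfAdjoint.star_mul_self a
  have hn : ‖h‖ = ‖a‖ ^ 2 := by rw [hh, CStarRing.norm_star_mul_self, sq]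
  have hspec : ∀ t ∈ spectrum ℝ h, t ≤ ‖a‖ ^ 2 := by
    intro t ht
    have := norm_apply_le_norm_cfc (𝕜 := ℝ) (fun t : ℝ => t) h ht
    rw [cfc_id' ℝ h hsa, hn] at this
    exact (le_abs_self t).trans this
  set c : A := cfc (fun t : ℝ => √(‖a‖ ^ 2 - t)) h with hc
  have hcs : star c = c := (cfc_predicate (R := ℝ) (fun t : ℝ => √(‖a‖ ^ 2 - t)) h).star_eq
  have hcont : ContinuousOn (fun t : ℝ => √(‖a‖ ^ 2 - t)) (spectrum ℝ h) := by fun_prop
  have hcc : star c * c = (‖a‖ ^ 2) • (1 : A) - h := by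
    rw [hcs, hc, ← cfc_mul (fun t : ℝ => √(‖a‖ ^ 2 - t)) (fun t : ℝ => √(‖a‖ ^ 2 - t)) h
      hcont hcont]
    have e2 : cfc (fun t : ℝ => √(‖a‖ ^ 2 - t) * √(‖a‖ ^ 2 - t)) h =
        cfc (fun t : ℝ => ‖a‖ ^ 2 - t) h :=
      cfc_congr fun t ht => Real.mul_self_sqrt (by linarith [hspec t ht])
    rw [e2, cfc_sub (a := h) (fun _ : ℝ => ‖a‖ ^ 2) (fun t : ℝ => t) continuousOn_const
      continuousOn_id, cfc_id' ℝ h hsa, cfc_const (‖a‖ ^ 2) h hsa, Algebra.algebraMap_eq_smul_one]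
  have f1 := (h2 c).1
  rw [hcc, map_sub, Complex.sub_re,
    show ((‖a‖ ^ 2 : ℝ) • (1 : A)) = ((‖a‖ ^ 2 : ℝ) : ℂ) • (1 : A) from
      (Complex.coe_smul _ _).symm, map_smul, h1, smul_eq_mul, mul_one, Complex.ofReal_re] at f1
  linarith

end TNB

theorem tnb_thm : TNBStmt := by
  intro A _ τ h1 h2 a
  have h3 := TNB.cs τ h1 h2 a
  have h4 := TNB.bdd τ h1 h2 a
  exact abs_le_of_sq_le_sq' (h3.trans h4) (norm_nonneg a) |>.2

end Pool.CGR
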